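import Pool.Agent.W188.MZ.Stm
import Pool.Agent.W63.GP.ResA

/-!
Project MZ, part RES2 (helper858): the residue theorem for `ζ(s) K(s-s₀) / ((1-w)(s-s₀))`, two lines.
-/

set_option autoImplicit false

open Complex MeasureTheory Set Filter Topology

namespace Pool.Agent.W858.MZ

open Pool.Agent.W188.QS Pool.Agent.W63.GP

/-- the integrand -/
noncomputable def Fw (c : ℂ) (K : ℂ → ℂ) (s₀ : ℂ) (s : ℂ) : ℂ :=
  (riemannZeta s * K (s - s₀)) / ((1 - ww c 2 s) * (s - s₀))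

/-- the quotient `‖ζ/(1-w)‖` under the reflection -/
theorem refl_quot2 (h1 : StBasic) {c : ℂ} (hc : ‖c‖ = 1) {s : ℂ} (hs : 1 ≤ s.im) :
    ‖riemannZeta (rf s)‖ / ‖1 - ww c 2 (rf s)‖ =
      ‖riemannZeta s‖ / ‖1 - ww c 2 s‖ / ‖XX s‖ := by
  obtain ⟨-, hX, -, -, hz, -, -, hw⟩ := h1 s hs
  have hwX : ‖ww c 2 s‖ = ‖XX s‖⁻¹ ^ 2 := by
    unfold ww
    rw [norm_mul, hc, one_mul, norm_pow, norm_inv]
  have hX0 : 0 < ‖XX s‖ := norm_pos_iff.2 hX
  have hw0 : 0 < ‖ww c 2 s‖ := by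
    rw [hwX]
    positivity
  have hwne : ww c 2 s ≠ 0 := norm_pos_iff.1 hw0
  have e1 : ‖1 - ww c 2 (rf s)‖ = ‖1 - ww c 2 s‖ / ‖ww c 2 s‖ := by
    rw [hw c 2 hc, ← RCLike.norm_conj (1 - ((starRingEnd ℂ) (ww c 2 s))⁻¹)]
    simp only [map_sub, map_one, map_inv₀, Complex.conj_conj]
    have : 1 - (ww c 2 s)⁻¹ = -(1 - ww c 2 s) / ww c 2 s := by
      field_simp
      ring
    rw [this, norm_div, norm_neg]
  rw [hz, RCLike.norm_conj, norm_mul, e1, hwX]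
  by_cases h0 : ‖1 - ww c 2 s‖ = 0
  · rw [h0]
    simp
  · field_simp

/-- the residue theorem -/
theorem residues2 (h1 : StBasic) (h2 : StLine) {c : ℂ} {K : ℂ → ℂ} {s₀ : ℂ} {a b : ℝ} (hc : ‖c‖ = 1)
    (hK : Differentiable ℂ K) (hK0 : K 0 = 1) (ha : 100 ≤ a)
    (hx1 : -3 < s₀.re) (hx2 : s₀.re < 4)
    (hat : a < s₀.im) (htb : s₀.im < b) (hwa : ww c 2 (cp a) = -1) (hwb : ww c 2 (cp b) = -1)
    (hw0 : ww c 2 s₀ ≠ 1) :
    RI (Fw c K s₀) (-3) 4 a b = 2 * Real.pi * I * (riemannZeta s₀ / (1 - ww c 2 s₀) +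
      ∑ᶠ t ∈ PP c 2 ∩ Ioo a b, riemannZeta (cp t) * K (cp t - s₀) /
        (2 * (lam t : ℂ) * (cp t - s₀))) := by
  classical
  have hab : a < b := hat.trans htb
  obtain ⟨l1, l2, l3, l4, l5, l6, l7, l8, l9, l10⟩ := h2
  have hfin : (PP c 2 ∩ Ioo a b).Finite :=
    (l10 c 2 hc (by norm_num) b).subset (fun t ht => ⟨ht.1, ht.2.2.le⟩)
  set S : Finset ℝ := hfin.toFinset with hS
  have hmemS : ∀ t, t ∈ S ↔ (100 < t ∧ ww c 2 (cp t) = 1) ∧ (a < t ∧ t < b) := by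
    intro t
    rw [hS, Set.Finite.mem_toFinset]
    rfl
  set Z : Finset ℂ := S.image cp with hZ
  have hUo : IsOpen {s : ℂ | 1 < s.im} := isOpen_lt continuous_const Complex.continuous_im
  have hwd : ∀ s : ℂ, 1 < s.im → DifferentiableAt ℂ (fun s => 1 - ww c 2 s) s := by
    intro s hs
    obtain ⟨b1, b2, b3, _⟩ := h1 s (le_of_lt hs)
    unfold ww
    exact (differentiableAt_const _).sub ((differentiableAt_const _).mul ((b1.inv b2).pow 2))
  have hfd : DifferentiableOn ℂ (fun s => (1 - ww c 2 s) * (s - s₀)) {s : ℂ | 1 < s.im} := by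
    intro s hs
    apply DifferentiableAt.differentiableWithinAt
    exact (hwd s hs).mul (differentiableAt_id.sub (differentiableAt_const _))
  have hKd : Differentiable ℂ (fun s => K (s - s₀)) :=
    hK.comp (differentiable_id.sub (differentiable_const s₀))
  have hHd : DifferentiableOn ℂ (fun s => riemannZeta s * K (s - s₀))
      {s : ℂ | 1 < s.im} := by
    intro s hs
    obtain ⟨b1, b2, b3, _⟩ := h1 s (le_of_lt hs)
    apply DifferentiableAt.differentiableWithinAt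
    exact DifferentiableAt.mul b3 (hKd s)
  have hR : Set.Icc (-3 : ℝ) 4 ×ℂ Set.Icc a b ⊆ {s : ℂ | 1 < s.im} := by
    intro s hs
    rw [mem_reProdIm] at hs
    show 1 < s.im
    have := hs.2.1
    linarith
  have h0 : ∀ s ∈ Set.Icc (-3 : ℝ) 4 ×ℂ Set.Icc a b, 1 - ww c 2 s = 0 ↔ s ∈ Z := by
    intro s hs
    rw [mem_reProdIm] at hs
    obtain ⟨⟨hs1, hs2⟩, hs3, hs4⟩ := hs
    obtain ⟨b1, b2, b3, b4, b5, b6, b7, b8⟩ := h1 s (by linarith)
    constructor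
    · intro hw
      have hw1 : ww c 2 s = 1 := by linear_combination -hw
      have hn : ‖XX s‖ = 1 := by
        have e1 : ‖ww c 2 s‖ = 1 := by rw [hw1, norm_one]
        unfold ww at e1
        rw [norm_mul, hc, one_mul, norm_pow, norm_inv] at e1
        have e2 : ‖XX s‖⁻¹ = 1 := by
          have h3 : (0 : ℝ) ≤ ‖XX s‖⁻¹ := by positivity
          nlinarith
        rw [inv_eq_one] at e2
        exact e2
      rcases lt_trichotomy s.re (1 / 2) with h | h | h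
      · exfalso
        have r1 : (rf s).re = 1 - s.re := by unfold rf; simp
        have r2 : (rf s).im = s.im := by unfold rf; simp
        have := l6 (rf s) (by rw [r1]; linarith) (by rw [r1]; linarith) (by rw [r2]; linarith)
        rw [b4, norm_inv, RCLike.norm_conj, hn] at this
        norm_num at this
      · have hcp : cp s.im = s := by
          apply Complex.ext
          · rw [cp_re, h]
          · rw [cp_im]
        rw [hZ, Finset.mem_image]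
        refine ⟨s.im, ?_, hcp⟩
        rw [hmemS]
        have n1 : s.im ≠ a := by
          intro e
          rw [← e, hcp, hw1] at hwa
          norm_num at hwa
        have n2 : s.im ≠ b := by
          intro e
          rw [← e, hcp, hw1] at hwb
          norm_num at hwb
        have n3 : a < s.im := lt_of_le_of_ne hs3 (Ne.symm n1)
        have n4 : s.im < b := lt_of_le_of_ne hs4 n2
        refine ⟨⟨by linarith, by rw [hcp]; exact hw1⟩, n3, n4⟩
      · exfalso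
        have := l6 s h hs2 (by linarith)
        rw [hn] at this
        exact lt_irrefl _ this
    · intro hz
      rw [hZ, Finset.mem_image] at hz
      obtain ⟨t, ht, rfl⟩ := hz
      rw [((hmemS t).1 ht).1.2, sub_self]
  have hs0Z : s₀ ∉ Z := by
    intro h
    rw [hZ, Finset.mem_image] at h
    obtain ⟨t, ht, he⟩ := h
    apply hw0
    rw [← he]
    exact ((hmemS t).1 ht).1.2
  have hd0 : deriv (fun s => (1 - ww c 2 s) * (s - s₀)) s₀ = 1 - ww c 2 s₀ := by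
    have h := ((hwd s₀ (by linarith)).hasDerivAt).mul ((hasDerivAt_id s₀).sub_const s₀)
    refine Eq.trans h.deriv ?_
    simp only [id_eq]
    ring
  have hdS : ∀ t ∈ S, deriv (fun s => (1 - ww c 2 s) * (s - s₀)) (cp t) =
      2 * (lam t : ℂ) * (cp t - s₀) := by
    intro t ht
    obtain ⟨⟨t1, t2⟩, t3, t4⟩ := (hmemS t).1 ht
    obtain ⟨e1, _, _⟩ := l1 t (by linarith)
    have hd := l7 c 2 (cp t) (by rw [cp_re]; norm_num) (by rw [cp_im]; linarith)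
    have hd2 := (hasDerivAt_const (cp t) (1 : ℂ)).sub hd
    have h := hd2.mul ((hasDerivAt_id (cp t)).sub_const s₀)
    refine Eq.trans h.deriv ?_
    simp only [id_eq, Pi.sub_apply]
    rw [e1, t2]
    push_cast
    ring
  have hl0 : ∀ t ∈ S, (lam t : ℂ) ≠ 0 := by
    intro t ht
    obtain ⟨⟨t1, t2⟩, t3, t4⟩ := (hmemS t).1 ht
    obtain ⟨_, _, e3⟩ := l1 t (by linarith)
    have : lam t ≠ 0 := by linarith
    exact_mod_cast this
  have htne : ∀ t ∈ S, cp t - s₀ ≠ 0 := by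
    intro t ht h
    apply hw0
    rw [← sub_eq_zero.1 h]
    exact ((hmemS t).1 ht).1.2
  have hres := SG.rect_res (fun s => (1 - ww c 2 s) * (s - s₀))
    (fun s => riemannZeta s * K (s - s₀)) (-3) 4 a b
    (by norm_num) hab (insert s₀ Z)
    (by
      intro z hz
      rw [Finset.mem_insert] at hz
      rcases hz with rfl | hz
      · rw [mem_reProdIm]
        exact ⟨⟨hx1, hx2⟩, hat, htb⟩
      · rw [hZ, Finset.mem_image] at hz
        obtain ⟨t, ht, rfl⟩ := hz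
        obtain ⟨_, t3, t4⟩ := (hmemS t).1 ht
        rw [mem_reProdIm, cp_re, cp_im]
        exact ⟨⟨by norm_num, by norm_num⟩, t3, t4⟩)
    (fun s hs => hfd.analyticAt (hUo.mem_nhds (hR hs)))
    (fun s hs => hHd.analyticAt (hUo.mem_nhds (hR hs)))
    (by
      intro s hs
      rw [mul_eq_zero, h0 s hs, Finset.mem_insert, sub_eq_zero]
      exact or_comm)
    (by
      intro z hz
      rw [Finset.mem_insert] at hz
      rcases hz with rfl | hz
      · rw [hd0]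
        intro h
        exact hw0 (sub_eq_zero.1 h).symm
      · rw [hZ, Finset.mem_image] at hz
        obtain ⟨t, ht, rfl⟩ := hz
        rw [hdS t ht]
        exact mul_ne_zero (mul_ne_zero two_ne_zero (hl0 t ht)) (htne t ht))
  have hlhs : RI (Fw c K s₀) (-3) 4 a b =
      SG.rectI (fun s => (riemannZeta s * K (s - s₀)) /
        ((1 - ww c 2 s) * (s - s₀))) (-3) 4 a b := rfl
  rw [hlhs, hres, Finset.sum_insert hs0Z, hZ, Finset.sum_image (fun x _ y _ h => cp_inj h),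
    finsum_mem_eq_finite_toFinset_sum _ hfin, ← hS, hd0]
  congr 2
  · rw [sub_self, hK0, mul_one]
  · refine Finset.sum_congr rfl fun t ht => ?_
    rw [hdS t ht]

/-- the norm of the integrand -/
theorem Fw_bound {c : ℂ} {K : ℂ → ℂ} {s₀ s : ℂ} {q k : ℝ}
    (hq : ‖riemannZeta s‖ / ‖1 - ww c 2 s‖ ≤ q) (hk : ‖K (s - s₀)‖ ≤ k) (hd : 1 ≤ ‖s - s₀‖) :
    ‖Fw c K s₀ s‖ ≤ q * k := by
  have hq0 : 0 ≤ ‖riemannZeta s‖ / ‖1 - ww c 2 s‖ := by positivity
  have e1 : ‖Fw c K s₀ s‖ = ‖riemannZeta s‖ / ‖1 - ww c 2 s‖ * (‖K (s - s₀)‖ / ‖s - s₀‖) := by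
    unfold Fw
    rw [norm_div, norm_mul, norm_mul]
    rw [div_mul_div_comm]
  rw [e1]
  exact mul_le_mul hq ((div_le_self (norm_nonneg _) hd).trans hk) (by positivity) (hq0.trans hq)

/-- the values on the right side of the rectangle -/
theorem right_side {c : ℂ} (hc : ‖c‖ = 1) {X y : ℝ} (hX : 2 ≤ X) (hXX : X ≤ ‖XX (⟨4, y⟩ : ℂ)‖) :
    ‖riemannZeta (⟨4, y⟩ : ℂ)‖ / ‖1 - ww c 2 (⟨4, y⟩ : ℂ)‖ ≤ 4 := by
  have hz : ‖riemannZeta (⟨4, y⟩ : ℂ)‖ ≤ 2 := norm_zeta_two (by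
    show (2 : ℝ) ≤ 4
    norm_num)
  have hw : ‖ww c 2 (⟨4, y⟩ : ℂ)‖ ≤ 1 / 2 := by
    unfold ww
    rw [norm_mul, hc, one_mul, norm_pow, norm_inv]
    have h1 : ‖XX (⟨4, y⟩ : ℂ)‖⁻¹ ≤ 1 / 2 := by
      rw [inv_le_comm₀ (by linarith) (by norm_num)]
      linarith
    have h2 : 0 ≤ ‖XX (⟨4, y⟩ : ℂ)‖⁻¹ := by positivity
    nlinarith
  have h1w : 1 / 2 ≤ ‖1 - ww c 2 (⟨4, y⟩ : ℂ)‖ := by
    have e1 := norm_sub_norm_le (1 : ℂ) (ww c 2 (⟨4, y⟩ : ℂ))
    rw [norm_one] at e1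
    linarith
  rw [div_le_iff₀ (by linarith)]
  linarith

theorem sq14 {u : ℝ} (h1 : -(18 / 5) ≤ u) (h2 : u ≤ 18 / 5) : u ^ 2 ≤ 14 := by nlinarith

theorem mul_bd {L u : ℝ} (hL : 0 ≤ L) (h1 : -(18 / 5) ≤ u) : -L / 2 * u ≤ L / 2 * (18 / 5) := by
  nlinarith

theorem exp_bd {L : ℝ} (hL : 160 ≤ L) : L + (14 + 3 * L - L ^ 2) ≤ 14 + L * (-(3 / 4 : ℝ)) := by
  nlinarith

theorem mz_res2_of (h1 : StBasic) (h2 : StLine) (h3 : StGood) : Pool.Agent.W188.MZ.StRes2 := by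
  obtain ⟨T1, hT1, hgood⟩ := h3 2 (by norm_num)
  obtain ⟨A, hA, hXX⟩ := h2.2.2.2.2.2.2.2.2.1
  have hX1 := h2.2.2.2.2.2.1
  have hX2 := h2.2.1
  set Kg : ℝ := ∫ y : ℝ, Real.exp (-(1 : ℝ) * y ^ 2) with hKg
  have hKg0 : 0 ≤ Kg := integral_nonneg (fun y => (Real.exp_pos _).le)
  set E : ℝ := Real.exp 14 with hE
  have hE0 : 0 < E := Real.exp_pos _
  set CR : ℝ := 4 * Real.exp 18 with hCR
  have hCR0 : 0 < CR := by positivity
  set CL : ℝ := 4 * Real.exp A * 10 ^ (7 / 2 : ℝ) * Real.exp 26 with hCL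
  have hCL0 : 0 < CL := by positivity
  refine ⟨2 * (7 * (500 * E)) + CR * Kg + CL * Kg,
    max (max (10 * T1) (20 * Real.exp A)) (Real.exp 160), ?_⟩
  intro c T s₀ K hc hT hTt htT hs0 hw0 hKd hK0 hKB
  have hTa : 10 * T1 ≤ T := ((le_max_left _ _).trans (le_max_left _ _)).trans hT
  have hTb : 20 * Real.exp A ≤ T := ((le_max_right _ _).trans (le_max_left _ _)).trans hT
  have hTc : Real.exp 160 ≤ T := (le_max_right _ _).trans hT
  have hTd : 6400 ≤ T := by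
    refine le_trans ?_ hTc
    have e1 : (81 : ℝ) ≤ Real.exp 80 := by
      have := Real.add_one_le_exp (80 : ℝ)
      linarith
    have e2 : Real.exp 160 = Real.exp 80 * Real.exp 80 := by
      rw [← Real.exp_add]; norm_num
    rw [e2]
    nlinarith
  have hT0 : 0 < T := by linarith
  set L : ℝ := Real.log T with hL
  have hL160 : 160 ≤ L := by
    rw [hL, Real.le_log_iff_exp_le hT0]
    exact hTc
  have hlog2 : L + 1 ≤ T / 40 := by
    have e : L = Real.log (T / 80) + Real.log 80 := by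
      rw [hL, ← Real.log_mul (by positivity) (by norm_num)]
      congr 1
      ring
    have e2 : Real.log (T / 80) ≤ T / 80 - 1 := Real.log_le_sub_one_of_pos (by positivity)
    have e3 : Real.log 80 ≤ 80 - 1 := Real.log_le_sub_one_of_pos (by norm_num)
    linarith
  have hTexp : ∀ r : ℝ, T ^ r = Real.exp (L * r) := by
    intro r
    rw [Real.rpow_def_of_pos hT0]
  have h16 : 16 / L ≤ 1 / 10 := by
    rw [div_le_iff₀ (by linarith)]
    linarith
  have h16L : 16 / L * L = 16 := by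
    field_simp
  obtain ⟨hs1, hs2⟩ := abs_le.1 hs0
  set x0 : ℝ := s₀.re with hx0
  set y0 : ℝ := s₀.im with hy0
  obtain ⟨a, ha1, ha2, hga⟩ := hgood c hc (y0 - L - 1) (by linarith)
  obtain ⟨b, hb1, hb2, hgb⟩ := hgood c hc (y0 + L) (by linarith)
  have ha2' : a ≤ y0 - L := by linarith
  refine ⟨a, b, ha1, ha2', hb1, hb2, ?_⟩
  have ha100 : 100 ≤ a := by linarith
  have haT : T / 10 ≤ a := by linarith
  have hbT : b ≤ 65 * T := by linarith
  have hat : a < y0 := by linarith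
  have htb : y0 < b := by linarith
  have hab : a < b := hat.trans htb
  have hres := residues2 h1 h2 (K := K) (s₀ := s₀) hc hKd hK0 ha100 (by linarith) (by linarith)
    hat htb hga.1 hgb.1 hw0
  set Q : ℂ := riemannZeta s₀ / (1 - ww c 2 s₀) +
      ∑ᶠ t ∈ PP c 2 ∩ Ioo a b, riemannZeta (cp t) * K (cp t - s₀) /
        (2 * (lam t : ℂ) * (cp t - s₀)) with hQ
  have hQn : ‖Q‖ ≤ ‖RI (Fw c K s₀) (-3) 4 a b‖ := by
    rw [hres, norm_mul, norm_mul, norm_mul, Complex.norm_I, mul_one, Complex.norm_real,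
      Complex.norm_ofNat, Real.norm_eq_abs, abs_of_pos Real.pi_pos]
    have hpi := Real.pi_gt_three
    exact le_mul_of_one_le_left (norm_nonneg Q) (by linarith)
  refine hQn.trans ?_
  -- the quotient on the right half and on the left half
  have hquot : ∀ x y B : ℝ, 100 ≤ y → -3 ≤ x → x ≤ 4 →
      (∀ σ : ℝ, (σ = x ∨ σ = 1 - x) → 1 / 2 ≤ σ → σ ≤ 4 →
        ‖riemannZeta (⟨σ, y⟩ : ℂ)‖ / ‖1 - ww c 2 (⟨σ, y⟩ : ℂ)‖ ≤ B) →
      ‖riemannZeta (⟨x, y⟩ : ℂ)‖ / ‖1 - ww c 2 (⟨x, y⟩ : ℂ)‖ ≤ B := by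
    intro x y B hy hx3 hx4 hB
    rcases le_total (1 / 2) x with hx | hx
    · exact hB x (Or.inl rfl) hx hx4
    · have h2 := hB (1 - x) (Or.inr rfl) (by linarith) (by linarith)
      have h3 := refl_quot2 h1 hc (s := (⟨1 - x, y⟩ : ℂ)) (by show 1 ≤ y; linarith)
      rw [rf_mk, sub_sub_cancel] at h3
      rw [h3]
      have hXn : 1 ≤ ‖XX (⟨1 - x, y⟩ : ℂ)‖ := by
        rcases hx.lt_or_eq with hx' | hx'
        · exact (hX1 (⟨1 - x, y⟩ : ℂ) (by show 1 / 2 < 1 - x; linarith)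
            (by show 1 - x ≤ 4; linarith) (by show 50 ≤ y; linarith)).le
        · have h4 := hX2 y
          have h5 : cp y = (⟨1 - x, y⟩ : ℂ) := by
            apply Complex.ext
            · rw [cp_re]; show 1 / 2 = 1 - x; linarith
            · rw [cp_im]
          rw [h5] at h4
          exact h4.ge
      exact (div_le_self (by positivity) hXn).trans h2
  -- the horizontal sides
  have hhor : ∀ y : ℝ, Good c 2 y → T / 10 ≤ y → y ≤ 65 * T → L ≤ |y - y0| →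
      ‖∫ x in (-3 : ℝ)..4, Fw c K s₀ (⟨x, y⟩ : ℂ)‖ ≤ 7 * (500 * E) * T ^ (-(3 / 4 : ℝ)) := by
    intro y hgy hy1 hy2 hyt
    have h5 : ∀ x ∈ Set.uIoc (-3 : ℝ) 4, ‖Fw c K s₀ (⟨x, y⟩ : ℂ)‖ ≤
        500 * E * T ^ (-(3 / 4 : ℝ)) := by
      intro x hx
      rw [Set.uIoc_of_le (by norm_num)] at hx
      have hB : ‖riemannZeta (⟨x, y⟩ : ℂ)‖ / ‖1 - ww c 2 (⟨x, y⟩ : ℂ)‖ ≤ 500 * T := by
        refine hquot x y _ (by linarith) hx.1.le hx.2 ?_
        intro σ hσ hσ2 hσ4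
        have g1 := bnd (hgy.2 σ hσ2 hσ4)
        refine (div_le_self (norm_nonneg _) g1).trans ?_
        refine (Pool.Agent.H388LH.zeta_growth (s := (⟨σ, y⟩ : ℂ)) ?_ ?_).trans ?_
        · show 1 / 4 ≤ σ
          linarith
        · show 1 ≤ y
          linarith
        · have e1 : ‖(⟨σ, y⟩ : ℂ)‖ ≤ |σ| + |y| := Complex.norm_le_abs_re_add_abs_im _
          rw [abs_of_nonneg (by linarith), abs_of_nonneg (by linarith)] at e1
          linarith
      have hd : L ≤ ‖(⟨x, y⟩ : ℂ) - s₀‖ := by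
        have e1 := Complex.abs_im_le_norm ((⟨x, y⟩ : ℂ) - s₀)
        rw [Complex.sub_im] at e1
        exact hyt.trans e1
      have hsq : L ^ 2 ≤ (y - y0) ^ 2 := by
        rw [← sq_abs (y - y0)]
        exact pow_le_pow_left₀ (by linarith) hyt 2
      have hk : ‖K ((⟨x, y⟩ : ℂ) - s₀)‖ ≤ Real.exp (14 + 3 * L - L ^ 2) := by
        refine (hKB _).trans ?_
        apply Real.exp_le_exp.2
        have e1 : ((⟨x, y⟩ : ℂ) - s₀).re = x - x0 := by rw [Complex.sub_re]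
        have e2 : ((⟨x, y⟩ : ℂ) - s₀).im = y - y0 := by rw [Complex.sub_im]
        rw [e1, e2]
        have hxl : -(18 / 5) ≤ x - x0 := by linarith [hx.1]
        have hxr : x - x0 ≤ 18 / 5 := by linarith [hx.2]
        have hxsq : (x - x0) ^ 2 ≤ 14 := sq14 hxl hxr
        have hab : |x - x0| ≤ 18 / 5 := abs_le.2 ⟨hxl, hxr⟩
        have f1 : -L / 2 * (x - x0) ≤ L / 2 * (18 / 5) := mul_bd (by linarith) hxl
        have f2 : L / 4 * |x - x0| ≤ L / 4 * (18 / 5) :=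
          mul_le_mul_of_nonneg_left hab (by linarith)
        linarith
      have h6 := Fw_bound hB hk (by linarith)
      refine h6.trans ?_
      have h7 : T * Real.exp (14 + 3 * L - L ^ 2) ≤ E * T ^ (-(3 / 4 : ℝ)) := by
        have e1 : T = Real.exp L := (Real.exp_log hT0).symm
        calc T * Real.exp (14 + 3 * L - L ^ 2)
            = Real.exp L * Real.exp (14 + 3 * L - L ^ 2) := by rw [← e1]
          _ = Real.exp (L + (14 + 3 * L - L ^ 2)) := by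
              rw [← Real.exp_add]
          _ ≤ Real.exp (14 + L * (-(3 / 4 : ℝ))) := Real.exp_le_exp.2 (exp_bd hL160)
          _ = E * T ^ (-(3 / 4 : ℝ)) := by rw [Real.exp_add, ← hTexp]
      calc 500 * T * Real.exp (14 + 3 * L - L ^ 2)
          = 500 * (T * Real.exp (14 + 3 * L - L ^ 2)) := by ring
        _ ≤ 500 * (E * T ^ (-(3 / 4 : ℝ))) := mul_le_mul_of_nonneg_left h7 (by norm_num)
        _ = 500 * E * T ^ (-(3 / 4 : ℝ)) := by ring
    have h8 := intervalIntegral.norm_integral_le_of_norm_le_const h5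
    have h9 : |(4 : ℝ) - -3| = 7 := by norm_num
    rw [h9] at h8
    linarith
  have hHA := hhor a hga haT (by linarith) (by
    rw [abs_sub_comm, abs_of_nonneg (by linarith)]
    linarith)
  have hHB := hhor b hgb (by linarith) hbT (by
    rw [abs_of_nonneg (by linarith)]
    linarith)
  -- the vertical sides
  have hXL : ∀ y : ℝ, T / 10 ≤ y → Real.exp (-A) * (T / 10) ^ (7 / 2 : ℝ) ≤ ‖XX (⟨4, y⟩ : ℂ)‖ := by
    intro y hy
    have h4 := (hXX (⟨4, y⟩ : ℂ) (by show (1 / 2 : ℝ) ≤ 4; norm_num)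
      (by show (4 : ℝ) ≤ 4; norm_num) (by show (1 : ℝ) ≤ y; linarith)).1
    refine le_trans ?_ h4
    show Real.exp (-A) * (T / 10) ^ (7 / 2 : ℝ) ≤ Real.exp (-A) * y ^ ((4 : ℝ) - 1 / 2)
    have e0 : (4 : ℝ) - 1 / 2 = 7 / 2 := by norm_num
    rw [e0]
    exact mul_le_mul_of_nonneg_left (Real.rpow_le_rpow (by positivity) hy (by norm_num))
      (Real.exp_pos _).le
  have hXL2 : 2 ≤ Real.exp (-A) * (T / 10) ^ (7 / 2 : ℝ) := by
    have e1 : T / 10 ≤ (T / 10) ^ (7 / 2 : ℝ) := by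
      calc T / 10 = (T / 10) ^ (1 : ℝ) := (Real.rpow_one _).symm
        _ ≤ (T / 10) ^ (7 / 2 : ℝ) :=
          Real.rpow_le_rpow_of_exponent_le (by linarith) (by norm_num)
    have e2 : 2 * Real.exp A ≤ T / 10 := by linarith
    calc (2 : ℝ) = Real.exp (-A) * (2 * Real.exp A) := by
          rw [Real.exp_neg]
          field_simp
      _ ≤ Real.exp (-A) * (T / 10) ^ (7 / 2 : ℝ) :=
          mul_le_mul_of_nonneg_left (e2.trans e1) (Real.exp_pos _).le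
  have hright : ∀ y : ℝ, T / 10 ≤ y →
      ‖riemannZeta (⟨4, y⟩ : ℂ)‖ / ‖1 - ww c 2 (⟨4, y⟩ : ℂ)‖ ≤ 4 :=
    fun y hy => right_side hc hXL2 (hXL y hy)
  have hleft : ∀ y : ℝ, T / 10 ≤ y →
      ‖riemannZeta (⟨-3, y⟩ : ℂ)‖ / ‖1 - ww c 2 (⟨-3, y⟩ : ℂ)‖ ≤
        4 * Real.exp A * 10 ^ (7 / 2 : ℝ) * T ^ (-(7 / 2) : ℝ) := by
    intro y hy
    have h3 := refl_quot2 h1 hc (s := (⟨4, y⟩ : ℂ)) (by show 1 ≤ y; linarith)
    rw [rf_mk] at h3
    have e0 : (1 : ℝ) - 4 = -3 := by norm_num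
    rw [e0] at h3
    rw [h3]
    have hpos : 0 < Real.exp (-A) * (T / 10) ^ (7 / 2 : ℝ) := by linarith
    have e1 : ‖riemannZeta (⟨4, y⟩ : ℂ)‖ / ‖1 - ww c 2 (⟨4, y⟩ : ℂ)‖ / ‖XX (⟨4, y⟩ : ℂ)‖ ≤
        4 / (Real.exp (-A) * (T / 10) ^ (7 / 2 : ℝ)) :=
      div_le_div₀ (by norm_num) (hright y hy) hpos (hXL y hy)
    refine e1.trans (le_of_eq ?_)
    rw [Real.div_rpow hT0.le (by norm_num), Real.rpow_neg hT0.le, Real.exp_neg]
    have g1 : (T ^ (7 / 2 : ℝ)) ≠ 0 := (Real.rpow_pos_of_pos hT0 _).ne'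
    have g2 : ((10 : ℝ) ^ (7 / 2 : ℝ)) ≠ 0 := (Real.rpow_pos_of_pos (by norm_num) _).ne'
    have g3 : Real.exp A ≠ 0 := (Real.exp_pos _).ne'
    field_simp
  have hVR : ‖∫ y in a..b, Fw c K s₀ (⟨4, y⟩ : ℂ)‖ ≤ CR * T ^ (-(3 / 4 : ℝ)) * Kg := by
    refine vert (t₀ := y0) hab.le (by positivity) ?_
    intro y hy
    have hk : ‖K ((⟨4, y⟩ : ℂ) - s₀)‖ ≤ Real.exp (18 + L * (-(3 / 4)) + -(y - y0) ^ 2) := by
      refine (hKB _).trans ?_
      apply Real.exp_le_exp.2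
      have e1 : ((⟨4, y⟩ : ℂ) - s₀).re = 4 - x0 := by rw [Complex.sub_re]
      have e2 : ((⟨4, y⟩ : ℂ) - s₀).im = y - y0 := by rw [Complex.sub_im]
      rw [e1, e2, abs_of_nonneg (by linarith)]
      have hxsq : (4 - x0) ^ 2 ≤ 14 := sq14 (by linarith) (by linarith)
      have f1 : L * (7 / 2 - 16 / L) ≤ L * (4 - x0) :=
        mul_le_mul_of_nonneg_left (by linarith) (by linarith)
      have f2 : L * (7 / 2 - 16 / L) = 7 / 2 * L - 16 := by linarith
      linarith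
    have hd : 1 ≤ ‖(⟨4, y⟩ : ℂ) - s₀‖ := by
      have e1 := Complex.abs_re_le_norm ((⟨4, y⟩ : ℂ) - s₀)
      rw [Complex.sub_re] at e1
      refine le_trans ?_ e1
      show (1 : ℝ) ≤ |4 - x0|
      rw [abs_of_nonneg (by linarith)]
      linarith
    have h6 := Fw_bound (hright y (by linarith [hy.1])) hk hd
    refine h6.trans (le_of_eq ?_)
    rw [Real.exp_add, Real.exp_add, ← hTexp, hCR]
    ring
  have hVL : ‖∫ y in a..b, Fw c K s₀ (⟨-3, y⟩ : ℂ)‖ ≤ CL * T ^ (-(3 / 4 : ℝ)) * Kg := by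
    refine vert (t₀ := y0) hab.le (by positivity) ?_
    intro y hy
    have hk : ‖K ((⟨-3, y⟩ : ℂ) - s₀)‖ ≤ Real.exp (26 + L * (21 / 8) + -(y - y0) ^ 2) := by
      refine (hKB _).trans ?_
      apply Real.exp_le_exp.2
      have e1 : ((⟨-3, y⟩ : ℂ) - s₀).re = -3 - x0 := by rw [Complex.sub_re]
      have e2 : ((⟨-3, y⟩ : ℂ) - s₀).im = y - y0 := by rw [Complex.sub_im]
      rw [e1, e2, abs_of_nonpos (by linarith)]
      have hxsq : (-3 - x0) ^ 2 ≤ 14 := sq14 (by linarith) (by linarith)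
      have f1 : L * (3 + x0) ≤ L * (7 / 2 + 16 / L) :=
        mul_le_mul_of_nonneg_left (by linarith) (by linarith)
      have f2 : L * (7 / 2 + 16 / L) = 7 / 2 * L + 16 := by linarith
      linarith
    have hd : 1 ≤ ‖(⟨-3, y⟩ : ℂ) - s₀‖ := by
      have e1 := Complex.abs_re_le_norm ((⟨-3, y⟩ : ℂ) - s₀)
      rw [Complex.sub_re] at e1
      refine le_trans ?_ e1
      show (1 : ℝ) ≤ |-3 - x0|
      rw [abs_of_nonpos (by linarith)]
      linarith
    have h6 := Fw_bound (hleft y (by linarith [hy.1])) hk hd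
    refine h6.trans ?_
    rw [Real.exp_add, Real.exp_add, ← hTexp, hCL]
    have g1 : T ^ (-(7 / 2) : ℝ) * T ^ (21 / 8 : ℝ) ≤ T ^ (-(3 / 4 : ℝ)) := by
      rw [← Real.rpow_add hT0]
      exact Real.rpow_le_rpow_of_exponent_le (by linarith) (by norm_num)
    calc 4 * Real.exp A * 10 ^ (7 / 2 : ℝ) * T ^ (-(7 / 2) : ℝ) *
          (Real.exp 26 * T ^ (21 / 8 : ℝ) * Real.exp (-(y - y0) ^ 2))
        = (4 * Real.exp A * 10 ^ (7 / 2 : ℝ) * Real.exp 26 * Real.exp (-(y - y0) ^ 2)) *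
          (T ^ (-(7 / 2) : ℝ) * T ^ (21 / 8 : ℝ)) := by ring
      _ ≤ (4 * Real.exp A * 10 ^ (7 / 2 : ℝ) * Real.exp 26 * Real.exp (-(y - y0) ^ 2)) *
          T ^ (-(3 / 4 : ℝ)) := mul_le_mul_of_nonneg_left g1 (by positivity)
      _ = 4 * Real.exp A * 10 ^ (7 / 2 : ℝ) * Real.exp 26 * T ^ (-(3 / 4 : ℝ)) *
          Real.exp (-(y - y0) ^ 2) := by ring
  unfold RI
  have n1 := norm_sub_le ((∫ x in (-3 : ℝ)..4, Fw c K s₀ (⟨x, a⟩ : ℂ)) -
    (∫ x in (-3 : ℝ)..4, Fw c K s₀ (⟨x, b⟩ : ℂ)) + I * (∫ y in a..b, Fw c K s₀ (⟨4, y⟩ : ℂ)))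
    (I * (∫ y in a..b, Fw c K s₀ (⟨-3, y⟩ : ℂ)))
  have n2 := norm_add_le ((∫ x in (-3 : ℝ)..4, Fw c K s₀ (⟨x, a⟩ : ℂ)) -
    (∫ x in (-3 : ℝ)..4, Fw c K s₀ (⟨x, b⟩ : ℂ))) (I * (∫ y in a..b, Fw c K s₀ (⟨4, y⟩ : ℂ)))
  have n3 := norm_sub_le (∫ x in (-3 : ℝ)..4, Fw c K s₀ (⟨x, a⟩ : ℂ))
    (∫ x in (-3 : ℝ)..4, Fw c K s₀ (⟨x, b⟩ : ℂ))
  rw [norm_mul, Complex.norm_I, one_mul] at n1 n2
  have n4 : (2 * (7 * (500 * E)) + CR * Kg + CL * Kg) * T ^ (-(3 / 4 : ℝ)) =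
      7 * (500 * E) * T ^ (-(3 / 4 : ℝ)) + 7 * (500 * E) * T ^ (-(3 / 4 : ℝ)) +
      CR * T ^ (-(3 / 4 : ℝ)) * Kg + CL * T ^ (-(3 / 4 : ℝ)) * Kg := by ring
  rw [n4]
  linarith

theorem mz_res2 : Pool.Agent.W188.MZ.StRes2 :=
  mz_res2_of Pool.Agent.W22.QS.qs_basic Pool.Agent.W338.QS.qs_line
    (Pool.Agent.W563.QS.Good.qs_good Pool.Agent.W338.QS.qs_line)

end Pool.Agent.W858.MZ
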